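import Mathlib
import Pool.Agent.Q269.NagellLutz

namespace Pool.Agent.Results.MP_ebd346_nt.InfinitelyManyPrimitive

open Pool.Agent.Q269.NagellLutz

/-! ### Definitions -/

/-- `s, b, c` are the edge lengths of a non-degenerate plane triangle whose altitude onto the
edge of length `s` is `h`: with the edge `s` placed on the first coordinate axis from `(0, 0)` to
`(s, 0)`, the opposite vertex is `(x, h)` for some real `x`. -/
def HasAltitude (s b c : ℕ) (h : ℝ) : Prop :=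
  0 < s ∧ 0 < b ∧ 0 < c ∧ 0 < h ∧
    ∃ x : ℝ, x ^ 2 + h ^ 2 = (b : ℝ) ^ 2 ∧ ((s : ℝ) - x) ^ 2 + h ^ 2 = (c : ℝ) ^ 2

/-- The triangle with edges `s, b, c` has base/height ratio `k` with respect to the base `s`. -/
def BaseHeight (k s b c : ℕ) : Prop := ∃ h : ℝ, HasAltitude s b c h ∧ (s : ℝ) / h = k

/-- The triangle with edges `s, b, c` has height/base ratio `k` with respect to the base `s`. -/
def HeightBase (k s b c : ℕ) : Prop := ∃ h : ℝ, HasAltitude s b c h ∧ h / (s : ℝ) = k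

/-- Some edge of the triangle with the three edge lengths `t` can be taken as the base. -/
def SomeEdge (R : ℕ → ℕ → ℕ → Prop) (t : ℕ × ℕ × ℕ) : Prop :=
  R t.1 t.2.1 t.2.2 ∨ R t.2.1 t.1 t.2.2 ∨ R t.2.2 t.1 t.2.1

/-- The primitive triangles with the property `R` for some base; a triangle is recorded (up to
congruence) by its edge lengths in non-decreasing order. -/
def PrimitiveTriangles (R : ℕ → ℕ → ℕ → Prop) : Set (ℕ × ℕ × ℕ) :=
  {t | t.1 ≤ t.2.1 ∧ t.2.1 ≤ t.2.2 ∧ Nat.gcd t.1 (Nat.gcd t.2.1 t.2.2) = 1 ∧ SomeEdge R t}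

/-! ### The elliptic curve `y² = x((x+1)² + r² x)` with `r = k` or `r = 1/k` -/

lemma no_sq_add_four {k : ℕ} (hk : 0 < k) (c : ℚ) : c ^ 2 ≠ (k : ℚ) ^ 2 + 4 := by
  intro h
  have h1 : IsSquare (((k ^ 2 + 4 : ℕ)) : ℚ) := ⟨c, by push_cast; rw [← h]; ring⟩
  rw [Rat.isSquare_natCast_iff] at h1
  obtain ⟨m, hm⟩ := h1
  have h2 : k < m := by nlinarith
  have h3 : m < k + 2 := by nlinarith
  have h4 : m = k + 1 := by omega
  subst h4
  ring_nf at hm
  omega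

lemma no_four_mul_sq_add_one {k : ℕ} (hk : 0 < k) (c : ℚ) : c ^ 2 ≠ 4 * (k : ℚ) ^ 2 + 1 := by
  intro h
  have h1 : IsSquare (((4 * k ^ 2 + 1 : ℕ)) : ℚ) := ⟨c, by push_cast; rw [← h]; ring⟩
  rw [Rat.isSquare_natCast_iff] at h1
  obtain ⟨m, hm⟩ := h1
  have h2 : 2 * k < m := by nlinarith
  have h3 : m < 2 * k + 1 := by nlinarith
  omega

/-- A rational number whose square is an integer is an integer. -/
lemma int_of_sq_int {M : ℚ} (h : (M ^ 2).den = 1) : ∃ m : ℤ, M = m := by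
  rw [Rat.den_pow] at h
  have h1 : M.den = 1 := by
    have h2 := M.pos
    nlinarith
  exact ⟨M.num, (Rat.den_eq_one_iff M).mp h1 |>.symm⟩

theorem curve_infinite {k : ℕ} (hk : 0 < k) {a b : ℤ}
    (hab : (a = k ∧ b = 1) ∨ (a = 1 ∧ b = k)) {x y r : ℚ} (hr : r = a / b)
    (hx0 : x ≠ 0) (hx1 : x ≠ -1) (h : y ^ 2 = x * ((x + 1) ^ 2 + r ^ 2 * x)) :
    {x : ℚ | ∃ y : ℚ, y ^ 2 = x * ((x + 1) ^ 2 + r ^ 2 * x)}.Infinite := by
  have hb0 : (b : ℚ) ≠ 0 := by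
    rcases hab with ⟨_, hb⟩ | ⟨_, hb⟩ <;> rw [hb] <;> push_cast
    · norm_num
    · exact_mod_cast hk.ne'
  have ha0 : (a : ℚ) ≠ 0 := by
    rcases hab with ⟨ha, _⟩ | ⟨ha, _⟩ <;> rw [ha] <;> push_cast
    · exact_mod_cast hk.ne'
    · norm_num
  have har : (a : ℚ) = r * b := by rw [hr]; field_simp
  have hr0 : r ≠ 0 := by
    rintro rfl
    rw [zero_mul] at har
    exact ha0 har
  -- r² + 4 is not a square
  have hns : ∀ c : ℚ, c ^ 2 ≠ r ^ 2 + 4 := by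
    intro c hc
    have hc2 : (c * b) ^ 2 = a ^ 2 + 4 * b ^ 2 := by
      rw [har]; linear_combination (b : ℚ) ^ 2 * hc
    rcases hab with ⟨ha, hb⟩ | ⟨ha, hb⟩
    · rw [ha, hb] at hc2
      push_cast at hc2
      exact no_sq_add_four hk (c * 1) (by linear_combination hc2)
    · rw [ha, hb] at hc2
      push_cast at hc2
      exact no_four_mul_sq_add_one hk (c * k) (by linear_combination hc2)
  have hy0 : y ≠ 0 := by
    rintro rfl
    have h1 : (x + 1) ^ 2 + r ^ 2 * x = 0 := by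
      have : x * ((x + 1) ^ 2 + r ^ 2 * x) = 0 := by rw [← h]; ring
      exact (mul_eq_zero.mp this).resolve_left hx0
    apply hns ((2 * x + r ^ 2 + 2) / r)
    field_simp
    linear_combination 4 * h1
  have hx1' : x ≠ 1 := by
    rintro rfl
    exact hns y (by rw [h]; ring)
  set s : ℚ := (x ^ 2 - 1) / (2 * y) with hs
  have hs0 : s ≠ 0 := by
    rw [hs]
    apply div_ne_zero _ (mul_ne_zero two_ne_zero hy0)
    intro h0
    have : (x - 1) * (x + 1) = 0 := by linear_combination h0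
    rcases mul_eq_zero.mp this with h1 | h1
    · exact hx1' (by linarith)
    · exact hx1 (by linarith)
  set t : ℚ := (x ^ 4 + 2 * (r ^ 2 + 2) * x ^ 3 + 6 * x ^ 2 + 2 * (r ^ 2 + 2) * x + 1)
    / (4 * y ^ 2) with ht
  have hst : (s ^ 2 + 1) ^ 2 + r ^ 2 * s ^ 2 = t ^ 2 := by
    have hsy : s * (2 * y) = x ^ 2 - 1 := by rw [hs]; field_simp
    have hs2 : s ^ 2 * (4 * y ^ 2) = (x ^ 2 - 1) ^ 2 := by rw [← hsy]; ring
    have hty : t * (4 * y ^ 2)
        = x ^ 4 + 2 * (r ^ 2 + 2) * x ^ 3 + 6 * x ^ 2 + 2 * (r ^ 2 + 2) * x + 1 := by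
      rw [ht]; field_simp
    have hy4 : (4 * y ^ 2) ^ 2 ≠ 0 := by positivity
    apply mul_right_cancel₀ hy4
    have e1 : ((s ^ 2 + 1) ^ 2 + r ^ 2 * s ^ 2) * (4 * y ^ 2) ^ 2
        = (s ^ 2 * (4 * y ^ 2) + 4 * y ^ 2) ^ 2 + r ^ 2 * (s ^ 2 * (4 * y ^ 2)) * (4 * y ^ 2) := by
      ring
    have e2 : t ^ 2 * (4 * y ^ 2) ^ 2 = (t * (4 * y ^ 2)) ^ 2 := by ring
    rw [e1, e2, hs2, hty, h]
    ring
  -- the integral model
  set A : ℤ := a ^ 2 + 2 * b ^ 2 with hA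
  set B : ℤ := b ^ 4 with hB
  have hAq : (A : ℚ) = b ^ 2 * (r ^ 2 + 2) := by rw [hA]; push_cast; rw [har]; ring
  have hBq : (B : ℚ) = b ^ 4 := by rw [hB]; push_cast; ring
  have transfer : {x : ℚ | ∃ y : ℚ, y ^ 2 = x ^ 3 + A * x ^ 2 + B * x}.Infinite →
      {x : ℚ | ∃ y : ℚ, y ^ 2 = x * ((x + 1) ^ 2 + r ^ 2 * x)}.Infinite := by
    intro hinf
    have himg := hinf.image (f := fun X : ℚ => X / b ^ 2) (by
      intro u _ v _ huv
      simp only at huv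
      field_simp at huv
      exact huv)
    refine himg.mono ?_
    rintro _ ⟨X, ⟨Y, hY⟩, rfl⟩
    refine ⟨Y / b ^ 3, ?_⟩
    rw [hAq, hBq] at hY
    field_simp
    linear_combination hY
  have hP1 : (b ^ 3 * s * t : ℚ) ^ 2 = (b ^ 2 * s ^ 2 : ℚ) ^ 3 + A * (b ^ 2 * s ^ 2) ^ 2
      + B * (b ^ 2 * s ^ 2) := by
    rw [hAq, hBq]
    linear_combination (-(b : ℚ) ^ 6 * s ^ 2) * hst
  have hP2 : (b ^ 3 * t / s ^ 3 : ℚ) ^ 2 = (b ^ 2 / s ^ 2 : ℚ) ^ 3 + A * (b ^ 2 / s ^ 2) ^ 2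
      + B * (b ^ 2 / s ^ 2) := by
    rw [hAq, hBq]
    field_simp
    linear_combination (-1 : ℚ) * hst
  by_cases hX1 : (b ^ 2 * s ^ 2 : ℚ).den = 1
  swap
  · exact transfer (infinite_of_nonintegral A B hP1 hX1)
  by_cases hX2 : (b ^ 2 / s ^ 2 : ℚ).den = 1
  swap
  · exact transfer (infinite_of_nonintegral A B hP2 hX2)
  exfalso
  obtain ⟨M, hM⟩ := int_of_sq_int (M := b * s) (by rw [mul_pow]; exact hX1)
  obtain ⟨N, hN⟩ := int_of_sq_int (M := b / s) (by rw [div_pow]; exact hX2)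
  have hMN : M * N = b ^ 2 := by
    have : (M : ℚ) * N = b ^ 2 := by rw [← hM, ← hN]; field_simp
    exact_mod_cast this
  have hT : (b * t / s : ℚ) ^ 2 = (((M + N) ^ 2 + a ^ 2 : ℤ) : ℚ) := by
    push_cast
    rw [← hM, ← hN, har]
    field_simp
    linear_combination (-1 : ℚ) * hst
  obtain ⟨T, hT'⟩ := int_of_sq_int (M := b * t / s) (by rw [hT]; exact Rat.den_intCast _)
  rw [hT'] at hT
  have hT2 : T ^ 2 = (M + N) ^ 2 + a ^ 2 := by exact_mod_cast hT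
  rcases hab with ⟨ha, hb⟩ | ⟨ha, hb⟩
  · rw [hb] at hMN
    have hMN1 : (M + N) ^ 2 = 4 := by
      rcases Int.eq_one_or_neg_one_of_mul_eq_one (by linarith : M * N = 1) with h1 | h1
      · rw [h1] at hMN ⊢
        have : N = 1 := by linarith
        rw [this]; norm_num
      · rw [h1] at hMN ⊢
        have : N = -1 := by linarith
        rw [this]; norm_num
    apply no_sq_add_four hk (T : ℚ)
    have : T ^ 2 = (k : ℤ) ^ 2 + 4 := by rw [hT2, hMN1, ha]; ring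
    exact_mod_cast this
  · rw [ha] at hT2
    have h1 : (T - (M + N)) * (T + (M + N)) = 1 := by linarith [hT2]
    have h2 : M + N = 0 := by
      rcases Int.mul_eq_one_iff_eq_one_or_neg_one.mp h1 with ⟨h3, h4⟩ | ⟨h3, h4⟩ <;> linarith
    have h3 : N = -M := by linarith
    rw [h3, hb] at hMN
    have h4 : (0 : ℤ) < (k : ℤ) ^ 2 := by positivity
    nlinarith [sq_nonneg M]

/-! ### Triangles and points -/

/-- base/height ratio equal to the rational number `r` -/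
def Ratio (r : ℚ) (s b c : ℕ) : Prop := ∃ h : ℝ, HasAltitude s b c h ∧ (s : ℝ) = r * h

lemma baseHeight_iff (k : ℕ) : BaseHeight k = Ratio (k : ℚ) := by
  funext s b c
  unfold BaseHeight Ratio
  apply propext
  apply exists_congr
  intro h
  apply and_congr_right
  intro hh
  have h0 : h ≠ 0 := hh.2.2.2.1.ne'
  push_cast
  rw [div_eq_iff h0]

lemma heightBase_iff {k : ℕ} (hk : 0 < k) : HeightBase k = Ratio (1 / (k : ℚ)) := by
  funext s b c
  unfold HeightBase Ratio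
  apply propext
  apply exists_congr
  intro h
  apply and_congr_right
  intro hh
  have h0 : (s : ℝ) ≠ 0 := by exact_mod_cast hh.1.ne'
  have hk0 : (k : ℝ) ≠ 0 := by exact_mod_cast hk.ne'
  push_cast
  rw [div_eq_iff h0]
  constructor
  · intro h1; rw [h1]; field_simp
  · intro h1; rw [h1]; field_simp

lemma hasAltitude_swap {s b c : ℕ} {h : ℝ} (H : HasAltitude s b c h) : HasAltitude s c b h := by
  obtain ⟨h1, h2, h3, h4, x, h5, h6⟩ := H
  exact ⟨h1, h3, h2, h4, s - x, h6, by rw [← h5]; ring⟩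

lemma ratio_swap {r : ℚ} {s b c : ℕ} (H : Ratio r s b c) : Ratio r s c b := by
  obtain ⟨h, h1, h2⟩ := H
  exact ⟨h, hasAltitude_swap h1, h2⟩

/-- A triangle gives a point on the curve. -/
lemma point_of_triangle {r : ℚ} (hr : 0 < r) {s b c : ℕ} (H : Ratio r s b c) :
    ∃ x y : ℚ, x ≠ 0 ∧ x ≠ -1 ∧ y ^ 2 = x * ((x + 1) ^ 2 + r ^ 2 * x) := by
  obtain ⟨h, ⟨hs, hb, hc, hh, X, hX1, hX2⟩, hsr⟩ := H
  have hsq : (0 : ℚ) < s := by exact_mod_cast hs
  have hsR : (0 : ℝ) < s := by exact_mod_cast hs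
  have hrR : (0 : ℝ) < r := by exact_mod_cast hr
  -- rational height and foot
  set hq : ℚ := s / r with hhq
  have hhq0 : 0 < hq := by positivity
  have hhR : h = (hq : ℝ) := by
    rw [hhq]; push_cast; field_simp; linear_combination -hsr
  set xq : ℚ := ((s : ℚ) ^ 2 + b ^ 2 - c ^ 2) / (2 * s) with hxq
  have hXR : X = (xq : ℝ) := by
    rw [hxq]; push_cast; field_simp; linear_combination hX1 - hX2
  have e1 : xq ^ 2 + hq ^ 2 = (b : ℚ) ^ 2 := by
    rw [hhR, hXR] at hX1; exact_mod_cast hX1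
  have e2 : ((s : ℚ) - xq) ^ 2 + hq ^ 2 = (c : ℚ) ^ 2 := by
    rw [hhR, hXR] at hX2; exact_mod_cast hX2
  have e3 : (s : ℚ) = r * hq := by rw [hhq]; field_simp
  obtain ⟨u, hu⟩ : ∃ u : ℚ, u = xq / hq := ⟨_, rfl⟩
  obtain ⟨v, hv⟩ : ∃ v : ℚ, v = (s - xq) / hq := ⟨_, rfl⟩
  obtain ⟨β, hβ⟩ : ∃ v : ℚ, v = b / hq := ⟨_, rfl⟩
  obtain ⟨γ, hγ⟩ : ∃ v : ℚ, v = c / hq := ⟨_, rfl⟩
  have huβ : β ^ 2 = u ^ 2 + 1 := by
    rw [hu, hβ]; field_simp; linear_combination -e1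
  have hvγ : γ ^ 2 = v ^ 2 + 1 := by
    rw [hv, hγ]; field_simp; linear_combination -e2
  have huv : u + v = r := by
    rw [hu, hv, e3]; field_simp; ring
  clear_value hq xq
  obtain ⟨p, hp⟩ : ∃ p : ℚ, p = u + β := ⟨_, rfl⟩
  obtain ⟨q, hq'⟩ : ∃ q : ℚ, q = v + γ := ⟨_, rfl⟩
  have hp1 : p ^ 2 = 1 + 2 * u * p := by rw [hp]; linear_combination huβ
  have hq1 : q ^ 2 = 1 + 2 * v * q := by rw [hq']; linear_combination hvγ
  have hp0 : p ≠ 0 := by rintro rfl; norm_num at hp1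
  have hq0 : q ≠ 0 := by rintro rfl; norm_num at hq1
  have hrpq : 2 * r * (p * q) = (p * q - 1) * (p + q) := by
    rw [← huv]; linear_combination (-q) * hp1 - p * hq1
  refine ⟨-(p * q), (p * q - 1) * (p - q) / 2, neg_ne_zero.mpr (mul_ne_zero hp0 hq0), ?_, ?_⟩
  · intro h1
    have h2 : p * q = 1 := by linarith
    rw [h2] at hrpq
    linarith
  · have h3 : r ^ 2 * (p * q) ^ 2 = ((p * q - 1) * (p + q)) ^ 2 / 4 := by
      rw [← hrpq]; ring
    linear_combination (-1 : ℚ) * h3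

/-- Clearing denominators. -/
lemma nat_of_mul {q : ℚ} (hq : 0 < q) {d : ℕ} (hd : 0 < d) (hdq : q.den ∣ d) :
    ∃ n : ℕ, 0 < n ∧ (n : ℚ) = d * q := by
  obtain ⟨e, rfl⟩ := hdq
  have hnum : 0 < q.num := Rat.num_pos.mpr hq
  have he : 0 < e := Nat.pos_of_mul_pos_left hd |> fun h => by
    rcases Nat.eq_zero_or_pos e with h0 | h0
    · rw [h0] at hd; simp at hd
    · exact h0
  refine ⟨q.num.toNat * e, by
    have : 0 < q.num.toNat := by omega
    positivity, ?_⟩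
  have h1 : ((q.num.toNat : ℕ) : ℚ) = (q.num : ℚ) := by
    have : ((q.num.toNat : ℕ) : ℤ) = q.num := Int.toNat_of_nonneg hnum.le
    exact_mod_cast this
  push_cast
  rw [h1]
  have h2 : (q.den : ℚ) * q = q.num := by rw [mul_comm]; exact Rat.mul_den_eq_num q
  linear_combination (-(e : ℚ)) * h2

/-- A rational solution gives a primitive triangle. -/
lemma triangle_of_solution {r u v β γ : ℚ} (hr : 0 < r) (huv : u + v = r)
    (hβ : β ^ 2 = u ^ 2 + 1) (hγ : γ ^ 2 = v ^ 2 + 1) :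
    ∃ s b c : ℕ, Ratio r s b c ∧ Nat.gcd s (Nat.gcd b c) = 1 ∧
      β ^ 2 = (r * b / s) ^ 2 ∧ γ ^ 2 = (r * c / s) ^ 2 := by
  have hβ0 : 0 < |β| := by
    rw [abs_pos]; rintro rfl; nlinarith [sq_nonneg u]
  have hγ0 : 0 < |γ| := by
    rw [abs_pos]; rintro rfl; nlinarith [sq_nonneg v]
  set d : ℕ := r.den * (|β|).den * (|γ|).den with hd
  have hd0 : 0 < d := by
    have h1 := r.pos
    have h2 := (|β|).pos
    have h3 := (|γ|).pos
    positivity
  obtain ⟨s, hs0, hs⟩ := nat_of_mul hr hd0 (by rw [hd, mul_assoc]; exact dvd_mul_right _ _)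
  obtain ⟨b, hb0, hb⟩ := nat_of_mul hβ0 hd0
    (by rw [hd, mul_comm r.den, mul_assoc]; exact dvd_mul_right _ _)
  obtain ⟨c, hc0, hc⟩ := nat_of_mul hγ0 hd0 (by rw [hd]; exact dvd_mul_left _ _)
  clear_value d
  set g : ℕ := Nat.gcd s (Nat.gcd b c) with hg
  have hg0 : 0 < g := Nat.gcd_pos_of_pos_left _ hs0
  have hgs : g ∣ s := Nat.gcd_dvd_left _ _
  have hgb : g ∣ b := (Nat.gcd_dvd_right _ _).trans (Nat.gcd_dvd_left _ _)
  have hgc : g ∣ c := (Nat.gcd_dvd_right _ _).trans (Nat.gcd_dvd_right _ _)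
  have hprim : Nat.gcd (s / g) (Nat.gcd (b / g) (c / g)) = 1 := by
    rw [Nat.gcd_div hgb hgc, Nat.gcd_div hgs (Nat.dvd_gcd hgb hgc)]
    exact Nat.div_self hg0
  obtain ⟨s', hs'⟩ := hgs
  obtain ⟨b', hb'⟩ := hgb
  obtain ⟨c', hc'⟩ := hgc
  clear_value g
  have e1 : s / g = s' := by rw [hs']; exact Nat.mul_div_cancel_left _ hg0
  have e2 : b / g = b' := by rw [hb']; exact Nat.mul_div_cancel_left _ hg0
  have e3 : c / g = c' := by rw [hc']; exact Nat.mul_div_cancel_left _ hg0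
  rw [e1, e2, e3] at hprim
  subst hs' hb' hc'
  have hgq : (0 : ℚ) < g := by exact_mod_cast hg0
  have hdq : (0 : ℚ) < d := by exact_mod_cast hd0
  have hs'0 : 0 < s' := Nat.pos_of_mul_pos_left hs0 |> fun h => by
    rcases Nat.eq_zero_or_pos s' with h0 | h0
    · rw [h0] at hs0; simp at hs0
    · exact h0
  have hb'0 : 0 < b' := by
    rcases Nat.eq_zero_or_pos b' with h0 | h0
    · rw [h0] at hb0; simp at hb0
    · exact h0
  have hc'0 : 0 < c' := by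
    rcases Nat.eq_zero_or_pos c' with h0 | h0
    · rw [h0] at hc0; simp at hc0
    · exact h0
  have hs'q : (0 : ℚ) < s' := by exact_mod_cast hs'0
  push_cast at hs hb hc
  have f1 : (s' : ℚ) = d / g * r := by field_simp; linear_combination hs
  have f2 : (b' : ℚ) = d / g * |β| := by field_simp; linear_combination hb
  have f3 : (c' : ℚ) = d / g * |γ| := by field_simp; linear_combination hc
  refine ⟨s', b', c', ⟨((d / g : ℚ) : ℝ), ⟨hs'0, hb'0, hc'0, by exact_mod_cast div_pos hdq hgq,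
    ((d / g * u : ℚ) : ℝ), ?_, ?_⟩, ?_⟩, hprim, ?_, ?_⟩
  · have : (d / g * u : ℚ) ^ 2 + (d / g : ℚ) ^ 2 = (b' : ℚ) ^ 2 := by
      rw [f2, mul_pow, mul_pow, sq_abs, hβ]; ring
    exact_mod_cast this
  · have : ((s' : ℚ) - d / g * u) ^ 2 + (d / g : ℚ) ^ 2 = (c' : ℚ) ^ 2 := by
      rw [f3, f1, mul_pow, sq_abs, hγ, ← huv]; ring
    exact_mod_cast this
  · have : (s' : ℚ) = r * (d / g : ℚ) := by rw [f1]; ring
    exact_mod_cast this
  · rw [f2, f1]
    have h1 : r * (↑d / ↑g * |β|) / (↑d / ↑g * r) = |β| := by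
      have := hdq.ne'
      have := hgq.ne'
      have := hr.ne'
      field_simp
    rw [h1, sq_abs]
  · rw [f3, f1]
    have h1 : r * (↑d / ↑g * |γ|) / (↑d / ↑g * r) = |γ| := by
      have := hdq.ne'
      have := hgq.ne'
      have := hr.ne'
      field_simp
    rw [h1, sq_abs]

/-- the three edges of `t` -/
def edge (t : ℕ × ℕ × ℕ) (i : Fin 3) : ℕ := ![t.1, t.2.1, t.2.2] i

/-- Every primitive edge triple can be sorted. -/
lemma sorted_exists {R : ℕ → ℕ → ℕ → Prop} (hR : ∀ s b c, R s b c → R s c b) {s b c : ℕ}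
    (h : R s b c) (hg : Nat.gcd s (Nat.gcd b c) = 1) :
    ∃ t ∈ PrimitiveTriangles R, ∃ i j k : Fin 3, edge t i = s ∧ edge t j = b ∧ edge t k = c := by
  have h' := hR _ _ _ h
  have hg1 : Nat.gcd s (Nat.gcd c b) = 1 := by rw [Nat.gcd_comm c b]; exact hg
  have hg2 : Nat.gcd b (Nat.gcd s c) = 1 := by
    rw [← Nat.gcd_assoc, Nat.gcd_comm b s, Nat.gcd_assoc]; exact hg
  have hg3 : Nat.gcd b (Nat.gcd c s) = 1 := by rw [Nat.gcd_comm c s]; exact hg2
  have hg4 : Nat.gcd c (Nat.gcd s b) = 1 := by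
    rw [← Nat.gcd_assoc, Nat.gcd_comm c s, Nat.gcd_assoc]; exact hg1
  have hg5 : Nat.gcd c (Nat.gcd b s) = 1 := by rw [Nat.gcd_comm b s]; exact hg4
  rcases le_total s b with h1 | h1 <;> rcases le_total b c with h2 | h2 <;>
    rcases le_total s c with h3 | h3
  · exact ⟨(s, b, c), ⟨h1, h2, hg, Or.inl h⟩, 0, 1, 2, rfl, rfl, rfl⟩
  · exact ⟨(s, b, c), ⟨h1, h2, hg, Or.inl h⟩, 0, 1, 2, rfl, rfl, rfl⟩
  · exact ⟨(s, c, b), ⟨h3, h2, hg1, Or.inl h'⟩, 0, 2, 1, rfl, rfl, rfl⟩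
  · exact ⟨(c, s, b), ⟨h3, h1, hg4, Or.inr (Or.inl h')⟩, 1, 2, 0, rfl, rfl, rfl⟩
  · exact ⟨(b, s, c), ⟨h1, h3, hg2, Or.inr (Or.inl h)⟩, 1, 0, 2, rfl, rfl, rfl⟩
  · exact ⟨(b, c, s), ⟨h2, h3, hg3, Or.inr (Or.inr h)⟩, 2, 0, 1, rfl, rfl, rfl⟩
  · exact ⟨(c, b, s), ⟨h2, h1, hg5, Or.inr (Or.inr h')⟩, 2, 1, 0, rfl, rfl, rfl⟩
  · exact ⟨(c, b, s), ⟨h2, h1, hg5, Or.inr (Or.inr h')⟩, 2, 1, 0, rfl, rfl, rfl⟩

lemma fiber_finite (κ : ℚ) : {p : ℚ | p ≠ 0 ∧ (p + 1 / p) ^ 2 = κ}.Finite := by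
  by_cases h : ∃ p0 : ℚ, p0 ≠ 0 ∧ (p0 + 1 / p0) ^ 2 = κ
  · obtain ⟨p0, h0, hp0⟩ := h
    refine (Set.toFinite ({p0, 1 / p0, -p0, -(1 / p0)} : Set ℚ)).subset ?_
    rintro p ⟨hp, hpk⟩
    have h1 : (p + 1 / p) ^ 2 = (p0 + 1 / p0) ^ 2 := hpk.trans hp0.symm
    have h2 : (p - p0) * (p - 1 / p0) * ((p + p0) * (p + 1 / p0)) = 0 := by
      field_simp at h1 ⊢
      linear_combination h1
    simp only [Set.mem_insert_iff, Set.mem_singleton_iff]
    rcases mul_eq_zero.mp h2 with h3 | h3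
    · rcases mul_eq_zero.mp h3 with h4 | h4
      · left; linarith
      · right; left; linarith
    · rcases mul_eq_zero.mp h3 with h4 | h4
      · right; right; left; linarith
      · right; right; right; linarith
  · convert Set.finite_empty
    ext p
    simp only [Set.mem_ofPred_eq, Set.mem_empty_iff_false, iff_false]
    intro hp
    exact h ⟨p, hp⟩

/-- Infinitely many points give infinitely many primitive triangles. -/
lemma triangles_infinite {r : ℚ} (hr : 0 < r)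
    (hinf : {x : ℚ | ∃ y : ℚ, y ^ 2 = x * ((x + 1) ^ 2 + r ^ 2 * x)}.Infinite) :
    (PrimitiveTriangles (Ratio r)).Infinite := by
  intro hfin
  apply hinf
  set T := PrimitiveTriangles (Ratio r) with hT
  have hK : Set.Finite ((fun z : (ℕ × ℕ × ℕ) × Fin 3 × Fin 3 =>
      4 * (r * (edge z.1 z.2.1 : ℚ) / (edge z.1 z.2.2 : ℚ)) ^ 2) '' (T ×ˢ Set.univ)) :=
    (hfin.prod Set.finite_univ).image _
  set K := ((fun z : (ℕ × ℕ × ℕ) × Fin 3 × Fin 3 =>
      4 * (r * (edge z.1 z.2.1 : ℚ) / (edge z.1 z.2.2 : ℚ)) ^ 2) '' (T ×ˢ Set.univ)) with hKdef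
  have hP : Set.Finite (⋃ κ ∈ K, {p : ℚ | p ≠ 0 ∧ (p + 1 / p) ^ 2 = κ}) :=
    hK.biUnion (fun κ _ => fiber_finite κ)
  set P := (⋃ κ ∈ K, {p : ℚ | p ≠ 0 ∧ (p + 1 / p) ^ 2 = κ}) with hPdef
  have hX : Set.Finite (Set.image2 (fun p q : ℚ => -(p * q)) P P ∪ {0, -1}) :=
    (hP.image2 _ hP).union (Set.toFinite _)
  refine hX.subset ?_
  rintro x ⟨y, hy⟩
  by_cases hx0 : x = 0
  · right; simp [hx0]
  by_cases hx1 : x = -1
  · right; simp [hx1]
  left
  have hx1' : x + 1 ≠ 0 := fun h => hx1 (by linarith)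
  obtain ⟨p, hp⟩ : ∃ p : ℚ, p = (r * x - y) / (x + 1) := ⟨_, rfl⟩
  obtain ⟨q, hq⟩ : ∃ q : ℚ, q = (r * x + y) / (x + 1) := ⟨_, rfl⟩
  have hpq : p * q = -x := by
    rw [hp, hq]; field_simp; linear_combination -hy
  have hp0 : p ≠ 0 := by rintro rfl; apply hx0; linarith
  have hq0 : q ≠ 0 := by rintro rfl; apply hx0; linarith
  have hpps : (x + 1) * (p + q) = 2 * r * x := by rw [hp, hq]; field_simp; ring
  have huv : (p - 1 / p) / 2 + (q - 1 / q) / 2 = r := by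
    have hx : x = -(p * q) := by linarith
    rw [hx] at hpps
    field_simp
    linear_combination (-1 : ℚ) * hpps
  obtain ⟨s, b, c, hR, hg, hb, hc⟩ := triangle_of_solution (r := r) (u := (p - 1 / p) / 2)
    (v := (q - 1 / q) / 2) (β := (p + 1 / p) / 2) (γ := (q + 1 / q) / 2) hr huv
    (by field_simp; ring) (by field_simp; ring)
  obtain ⟨t, ht, i, j, k, hi, hj, hk⟩ := sorted_exists (R := Ratio r) (fun _ _ _ h => ratio_swap h) hR hg
  have hpP : p ∈ P := by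
    rw [hPdef]
    refine Set.mem_biUnion (x := (p + 1 / p) ^ 2) ?_ ⟨hp0, rfl⟩
    refine ⟨(t, j, i), ⟨ht, trivial⟩, ?_⟩
    simp only
    rw [hi, hj, ← hb]; ring
  have hqP : q ∈ P := by
    rw [hPdef]
    refine Set.mem_biUnion (x := (q + 1 / q) ^ 2) ?_ ⟨hq0, rfl⟩
    refine ⟨(t, k, i), ⟨ht, trivial⟩, ?_⟩
    simp only
    rw [hi, hk, ← hc]; ring
  exact ⟨p, hpP, q, hqP, by simp only; rw [hpq]; ring⟩

lemma main {k : ℕ} (hk : 0 < k) {a b : ℤ} (hab : (a = k ∧ b = 1) ∨ (a = 1 ∧ b = k)) {r : ℚ}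
    (hr : r = a / b) (H : ∃ t, SomeEdge (Ratio r) t) : (PrimitiveTriangles (Ratio r)).Infinite := by
  have hr0 : 0 < r := by
    have hkq : (0 : ℚ) < k := by exact_mod_cast hk
    rcases hab with ⟨ha, hb⟩ | ⟨ha, hb⟩ <;> rw [hr, ha, hb] <;> push_cast <;> positivity
  have H' : ∃ s b c, Ratio r s b c := by
    obtain ⟨t, ht | ht | ht⟩ := H
    · exact ⟨_, _, _, ht⟩
    · exact ⟨_, _, _, ht⟩
    · exact ⟨_, _, _, ht⟩
  obtain ⟨s, b', c, h⟩ := H'
  obtain ⟨x, y, hx0, hx1, hxy⟩ := point_of_triangle hr0 h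
  exact triangles_infinite hr0 (curve_infinite hk hab hr hx0 hx1 hxy)

/-- **MP_ebd346, Q1, affirmative answer.**  If a positive integer `k` occurs as a base/height
ratio of some integer-edged triangle, then it occurs as base/height ratio of infinitely many
primitive integer-edged triangles; and the same holds for height/base ratios. -/
theorem result (k : ℕ) (hk : 0 < k) :
    ((∃ t, SomeEdge (BaseHeight k) t) → (PrimitiveTriangles (BaseHeight k)).Infinite) ∧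
    ((∃ t, SomeEdge (HeightBase k) t) → (PrimitiveTriangles (HeightBase k)).Infinite) := by
  rw [baseHeight_iff, heightBase_iff hk]
  refine ⟨fun H => main hk (a := k) (b := 1) (Or.inl ⟨rfl, rfl⟩) (by push_cast; ring) H,
    fun H => main hk (a := 1) (b := k) (Or.inr ⟨rfl, rfl⟩) (by push_cast; ring) H⟩

end Pool.Agent.Results.MP_ebd346_nt.InfinitelyManyPrimitive
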